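import Mathlib

/-! # Project TU, part D: coordinates of a tuple modulo a countable field -/

set_option autoImplicit false

namespace Pool.Agent.Helper82.TU

open Set

/-- a new generic element -/
theorem exists_new (F : IntermediateField ℚ ℂ) (hc : Countable F) {m : ℕ} (s : Fin m → ℂ) :
    ∃ x : ℂ, ∀ q : Fin m → ℚ, x - ∑ i, (q i : ℂ) * s i ∉ F := by
  have hcF : (F : Set ℂ).Countable := Set.countable_coe_iff.1 hc
  have hcount : (Set.range (fun p : (Fin m → ℚ) × F => (∑ i, (p.1 i : ℂ) * s i) + (p.2 : ℂ))).Countable :=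
    Set.countable_range _
  have hne : (Set.range (fun p : (Fin m → ℚ) × F =>
      (∑ i, (p.1 i : ℂ) * s i) + (p.2 : ℂ))) ≠ Set.univ := by
    intro h
    rw [h] at hcount
    exact not_countable_complex hcount
  obtain ⟨x, hx⟩ := (Set.ne_univ_iff_exists_notMem _).1 hne
  refine ⟨x, fun q hq => hx ⟨(q, ⟨_, hq⟩), ?_⟩⟩
  ring

/-- independence is kept -/
theorem ind_snoc (F : IntermediateField ℚ ℂ) {m : ℕ} {s : Fin m → ℂ}
    (hs : ∀ q : Fin m → ℚ, (∑ i, (q i : ℂ) * s i) ∈ F → q = 0) {x : ℂ}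
    (hx : ∀ q : Fin m → ℚ, x - ∑ i, (q i : ℂ) * s i ∉ F) (q : Fin (m + 1) → ℚ)
    (hq : (∑ i, (q i : ℂ) * (Fin.snoc s x : Fin (m + 1) → ℂ) i) ∈ F) : q = 0 := by
  rw [Fin.sum_univ_castSucc] at hq
  simp only [Fin.snoc_castSucc, Fin.snoc_last] at hq
  by_cases h0 : q (Fin.last m) = 0
  · rw [h0, Rat.cast_zero, zero_mul, add_zero] at hq
    have h1 := hs (fun i => q i.castSucc) hq
    funext i
    refine Fin.lastCases ?_ (fun j => ?_) i
    · exact h0
    · exact congrFun h1 j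
  · exfalso
    apply hx (fun i => -((q (Fin.last m))⁻¹ * q i.castSucc))
    have hc0 : ((q (Fin.last m) : ℚ) : ℂ) ≠ 0 := by exact_mod_cast h0
    have h1 : x - ∑ i : Fin m, ((-((q (Fin.last m))⁻¹ * q i.castSucc) : ℚ) : ℂ) * s i =
        (((q (Fin.last m))⁻¹ : ℚ) : ℂ) *
          (∑ i : Fin m, (q i.castSucc : ℂ) * s i + (q (Fin.last m) : ℂ) * x) := by
      rw [mul_add, Finset.mul_sum]
      have h2 : (((q (Fin.last m))⁻¹ : ℚ) : ℂ) * ((q (Fin.last m) : ℂ) * x) = x := by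
        rw [← mul_assoc, Rat.cast_inv, inv_mul_cancel₀ hc0, one_mul]
      rw [h2]
      have h3 : ∑ i : Fin m, ((-((q (Fin.last m))⁻¹ * q i.castSucc) : ℚ) : ℂ) * s i =
          - ∑ i : Fin m, (((q (Fin.last m))⁻¹ : ℚ) : ℂ) * ((q i.castSucc : ℂ) * s i) := by
        rw [← Finset.sum_neg_distrib]
        refine Finset.sum_congr rfl (fun i _ => ?_)
        push_cast
        ring
      rw [h3]
      ring
    rw [h1]
    exact mul_mem (F.algebraMap_mem (q (Fin.last m))⁻¹) hq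

/-- every tuple is in the span of an independent tuple of the same length -/
theorem exists_span (F : IntermediateField ℚ ℂ) (hc : Countable F) {m : ℕ} (b : Fin m → ℂ) :
    ∃ s : Fin m → ℂ, (∀ q : Fin m → ℚ, (∑ i, (q i : ℂ) * s i) ∈ F → q = 0) ∧
      ∀ j, ∃ q : Fin m → ℚ, b j - ∑ i, (q i : ℂ) * s i ∈ F := by
  induction m with
  | zero => exact ⟨Fin.elim0, fun q _ => funext fun i => i.elim0, fun j => j.elim0⟩
  | succ m ih =>
    obtain ⟨s, h1, h2⟩ := ih (fun i => b i.castSucc)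
    have hold : ∀ (x y : ℂ), (∃ q : Fin m → ℚ, y - ∑ i, (q i : ℂ) * s i ∈ F) →
        ∃ q : Fin (m + 1) → ℚ,
          y - ∑ i, (q i : ℂ) * (Fin.snoc s x : Fin (m + 1) → ℂ) i ∈ F := by
      rintro x y ⟨q, hq⟩
      refine ⟨Fin.snoc q 0, ?_⟩
      rw [Fin.sum_univ_castSucc]
      simpa only [Fin.snoc_castSucc, Fin.snoc_last, Rat.cast_zero, zero_mul, add_zero] using hq
    by_cases h : ∃ q : Fin m → ℚ, b (Fin.last m) - ∑ i, (q i : ℂ) * s i ∈ F
    · obtain ⟨x, hx⟩ := exists_new F hc s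
      refine ⟨Fin.snoc s x, ind_snoc F h1 hx, fun j => ?_⟩
      refine Fin.lastCases (hold x _ h) (fun i => hold x _ (h2 i)) j
    · have hx : ∀ q : Fin m → ℚ, b (Fin.last m) - ∑ i, (q i : ℂ) * s i ∉ F :=
        fun q hq => h ⟨q, hq⟩
      refine ⟨Fin.snoc s (b (Fin.last m)), ind_snoc F h1 hx, fun j => ?_⟩
      refine Fin.lastCases ?_ (fun i => hold _ _ (h2 i)) j
      refine ⟨Fin.snoc 0 1, ?_⟩
      rw [Fin.sum_univ_castSucc]
      simp only [Fin.snoc_castSucc, Fin.snoc_last, Pi.zero_apply, Rat.cast_zero, zero_mul,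
        Finset.sum_const_zero, zero_add, Rat.cast_one, one_mul, sub_self]
      exact zero_mem _

/-- common denominators -/
theorem exists_common {m : ℕ} (q : Fin m → Fin m → ℚ) :
    ∃ D : ℕ, D ≠ 0 ∧ ∃ N : Fin m → Fin m → ℤ, ∀ i j, (D : ℚ) * q i j = N i j := by
  refine ⟨∏ i, ∏ j, (q i j).den, ?_, ?_⟩
  · exact Finset.prod_ne_zero_iff.2 fun i _ => Finset.prod_ne_zero_iff.2 fun j _ => (q i j).den_nz
  · have h : ∀ i j, ∃ N : ℤ, (((∏ i, ∏ j, (q i j).den : ℕ)) : ℚ) * q i j = N := by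
      intro i j
      obtain ⟨c, hc⟩ : (q i j).den ∣ ∏ i, ∏ j, (q i j).den :=
        (Finset.dvd_prod_of_mem (fun j => (q i j).den) (Finset.mem_univ j)).trans
          (Finset.dvd_prod_of_mem (fun i => ∏ j, (q i j).den) (Finset.mem_univ i))
      refine ⟨c * (q i j).num, ?_⟩
      rw [hc]
      push_cast
      have h1 : ((q i j).den : ℚ) * q i j = (q i j).num := by
        rw [mul_comm]; exact Rat.mul_den_eq_num _
      calc ((q i j).den : ℚ) * (c : ℚ) * q i j = c * (((q i j).den : ℚ) * q i j) := by ring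
        _ = c * (q i j).num := by rw [h1]
    choose N hN using h
    exact ⟨N, hN⟩

/-- **Coordinates modulo a countable field.** -/
theorem dec_core (F : IntermediateField ℚ ℂ) (hc : Countable F) {m : ℕ} (z : Fin m → ℂ) :
    ∃ (w f : Fin m → ℂ) (N : Matrix (Fin m) (Fin m) ℤ),
      (∀ q : Fin m → ℚ, (∑ i, (q i : ℂ) * w i) ∈ F → q = 0) ∧ (∀ i, f i ∈ F) ∧
      ∀ i, z i = (∑ l, ((N i l : ℤ) : ℂ) * w l) + f i := by
  obtain ⟨s, h1, h2⟩ := exists_span F hc z
  choose q hq using h2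
  obtain ⟨D, hD, N, hN⟩ := exists_common q
  have hDC : (D : ℂ) ≠ 0 := by exact_mod_cast hD
  refine ⟨fun i => s i / D, fun i => z i - ∑ l, (q i l : ℂ) * s l, N, ?_, hq, ?_⟩
  · intro r hr
    have h3 : (∑ i, ((r i / D : ℚ) : ℂ) * s i) ∈ F := by
      have h4 : (∑ i, ((r i / D : ℚ) : ℂ) * s i) = ∑ i, (r i : ℂ) * (s i / D) := by
        refine Finset.sum_congr rfl (fun i _ => ?_)
        push_cast
        ring
      rw [h4]
      exact hr
    have h5 := h1 (fun i => r i / D) h3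
    funext i
    have h6 : r i / (D : ℚ) = 0 := congrFun h5 i
    have hDQ : (D : ℚ) ≠ 0 := by exact_mod_cast hD
    rcases div_eq_zero_iff.1 h6 with h7 | h7
    · exact h7
    · exact absurd h7 hDQ
  · intro i
    have h3 : (∑ l, ((N i l : ℤ) : ℂ) * (s l / D)) = ∑ l, (q i l : ℂ) * s l := by
      refine Finset.sum_congr rfl (fun l _ => ?_)
      have h4 : ((N i l : ℤ) : ℂ) = (D : ℂ) * (q i l : ℂ) := by
        have h5 : (((N i l : ℤ) : ℚ) : ℂ) = (((D : ℚ) * q i l : ℚ) : ℂ) := by rw [hN i l]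
        push_cast at h5
        exact h5
      rw [h4]
      field_simp
    rw [h3]
    ring

end Pool.Agent.Helper82.TU
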